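import Mathlib

set_option autoImplicit false

open MeasureTheory ProbabilityTheory

namespace Pool.Agent.Results.MP_aa6114_pr.StrictNoTies

/-- fair coin -/
noncomputable def nu : Measure Bool :=
  (2⁻¹ : ENNReal) • Measure.dirac true + (2⁻¹ : ENNReal) • Measure.dirac false

instance : IsProbabilityMeasure nu := by
  constructor
  simp [nu, ENNReal.inv_two_add_inv_two]

theorem nu_single (c : Bool) : nu {c} = 2⁻¹ := by
  cases c <;> simp [nu]

/-- four independent fair coins -/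
noncomputable def mu : Measure (Fin 4 → Bool) := Measure.pi (fun _ => nu)

instance : IsProbabilityMeasure mu := by unfold mu; infer_instance

/-- the two possible values of each variable; all eight values are distinct -/
def val (i : Fin 4) (c : Bool) : ℕ :=
  match i, c with
  | 0, false => 2
  | 0, true => 6
  | 1, false => 1
  | 1, true => 7
  | 2, false => 3
  | 2, true => 4
  | 3, false => 0
  | 3, true => 5

def X (i : Fin 4) (ω : Fin 4 → Bool) : ℝ := (val i (ω i) : ℝ)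

theorem X_meas (i : Fin 4) : Measurable (X i) :=
  (measurable_of_finite (fun c => (val i c : ℝ))).comp (measurable_pi_apply i)

theorem X_indep : iIndepFun X mu := by
  unfold mu
  exact iIndepFun_pi (X := fun i c => (val i c : ℝ)) (fun i => (measurable_of_finite _).aemeasurable)

theorem val_ne : ∀ (i j : Fin 4) (c d : Bool), i ≠ j → val i c ≠ val j d := by decide

theorem X_ne (i j : Fin 4) (h : i ≠ j) (ω : Fin 4 → Bool) : X i ω ≠ X j ω := by
  unfold X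
  intro h2
  have h3 : val i (ω i) = val j (ω j) := by exact_mod_cast h2
  exact val_ne i j _ _ h h3

theorem X_lt (i j : Fin 4) (ω : Fin 4 → Bool) : X i ω < X j ω ↔ val i (ω i) < val j (ω j) := by
  unfold X
  exact Nat.cast_lt

theorem mu_single (ω : Fin 4 → Bool) : mu {ω} = 16⁻¹ := by
  rw [← Set.univ_pi_singleton]
  unfold mu
  rw [Measure.pi_pi]
  simp only [nu_single, Finset.prod_const, Finset.card_univ, Fintype.card_fin]
  rw [← ENNReal.inv_pow]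
  norm_num

theorem mu_finset (s : Finset (Fin 4 → Bool)) : mu (s : Set (Fin 4 → Bool)) = s.card * 16⁻¹ := by
  rw [← sum_measure_singleton]
  simp [mu_single]

theorem mset (s : Set (Fin 4 → Bool)) : MeasurableSet s := s.toFinite.measurableSet

/-- There are four independent real random variables, no two of which are ever equal, and a
constraint list `P` consisting only of the two strict inequalities `X 3 < X 0` and `X 3 < X 1`,
such that `Pr (X 0 < X 1 | P, X 0 < X 2) < Pr (X 0 < X 1 | P)`. -/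
theorem result :
    ∃ (Ω : Type) (_ : MeasurableSpace Ω) (μ : Measure Ω) (_ : IsProbabilityMeasure μ)
      (X : Fin 4 → Ω → ℝ),
      (∀ i, Measurable (X i)) ∧ iIndepFun X μ ∧ (∀ i j, i ≠ j → ∀ ω, X i ω ≠ X j ω) ∧
      μ ({ω | X 3 ω < X 0 ω ∧ X 3 ω < X 1 ω} ∩ {ω | X 0 ω < X 2 ω}) ≠ 0 ∧
      ProbabilityTheory.cond μ ({ω | X 3 ω < X 0 ω ∧ X 3 ω < X 1 ω} ∩ {ω | X 0 ω < X 2 ω})
          {ω | X 0 ω < X 1 ω} <
        ProbabilityTheory.cond μ {ω | X 3 ω < X 0 ω ∧ X 3 ω < X 1 ω} {ω | X 0 ω < X 1 ω} := by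
  refine ⟨Fin 4 → Bool, inferInstance, mu, inferInstance, X, X_meas, X_indep, X_ne, ?_⟩
  have hP : {ω : Fin 4 → Bool | X 3 ω < X 0 ω ∧ X 3 ω < X 1 ω} =
      ((Finset.univ.filter (fun ω : Fin 4 → Bool => val 3 (ω 3) < val 0 (ω 0) ∧ val 3 (ω 3) < val 1 (ω 1)) :
        Finset (Fin 4 → Bool)) : Set (Fin 4 → Bool)) := by
    ext ω; simp [X_lt]
  have hPc : {ω : Fin 4 → Bool | X 3 ω < X 0 ω ∧ X 3 ω < X 1 ω} ∩ {ω | X 0 ω < X 2 ω} =
      ((Finset.univ.filter (fun ω : Fin 4 → Bool => (val 3 (ω 3) < val 0 (ω 0) ∧ val 3 (ω 3) < val 1 (ω 1)) ∧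
        val 0 (ω 0) < val 2 (ω 2)) :
        Finset (Fin 4 → Bool)) : Set (Fin 4 → Bool)) := by
    ext ω; simp [X_lt]
  have hPb : {ω : Fin 4 → Bool | X 3 ω < X 0 ω ∧ X 3 ω < X 1 ω} ∩ {ω | X 0 ω < X 1 ω} =
      ((Finset.univ.filter (fun ω : Fin 4 → Bool => (val 3 (ω 3) < val 0 (ω 0) ∧ val 3 (ω 3) < val 1 (ω 1)) ∧
        val 0 (ω 0) < val 1 (ω 1)) :
        Finset (Fin 4 → Bool)) : Set (Fin 4 → Bool)) := by
    ext ω; simp [X_lt]
  have hPcb : ({ω : Fin 4 → Bool | X 3 ω < X 0 ω ∧ X 3 ω < X 1 ω} ∩ {ω | X 0 ω < X 2 ω}) ∩ {ω | X 0 ω < X 1 ω} =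
      ((Finset.univ.filter (fun ω : Fin 4 → Bool => ((val 3 (ω 3) < val 0 (ω 0) ∧ val 3 (ω 3) < val 1 (ω 1)) ∧
        val 0 (ω 0) < val 2 (ω 2)) ∧ val 0 (ω 0) < val 1 (ω 1)) :
        Finset (Fin 4 → Bool)) : Set (Fin 4 → Bool)) := by
    ext ω; simp [X_lt]
  have cP : (Finset.univ.filter (fun ω : Fin 4 → Bool => val 3 (ω 3) < val 0 (ω 0) ∧ val 3 (ω 3) < val 1 (ω 1))).card = 10 := by
    decide
  have cPc : (Finset.univ.filter (fun ω : Fin 4 → Bool => (val 3 (ω 3) < val 0 (ω 0) ∧ val 3 (ω 3) < val 1 (ω 1)) ∧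
        val 0 (ω 0) < val 2 (ω 2))).card = 4 := by
    decide
  have cPb : (Finset.univ.filter (fun ω : Fin 4 → Bool => (val 3 (ω 3) < val 0 (ω 0) ∧ val 3 (ω 3) < val 1 (ω 1)) ∧
        val 0 (ω 0) < val 1 (ω 1))).card = 6 := by
    decide
  have cPcb : (Finset.univ.filter (fun ω : Fin 4 → Bool => ((val 3 (ω 3) < val 0 (ω 0) ∧ val 3 (ω 3) < val 1 (ω 1)) ∧
        val 0 (ω 0) < val 2 (ω 2)) ∧ val 0 (ω 0) < val 1 (ω 1))).card = 2 := by
    decide
  have mP : mu {ω : Fin 4 → Bool | X 3 ω < X 0 ω ∧ X 3 ω < X 1 ω} = 10 * 16⁻¹ := by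
    rw [hP, mu_finset, cP]; norm_num
  have mPc : mu ({ω : Fin 4 → Bool | X 3 ω < X 0 ω ∧ X 3 ω < X 1 ω} ∩ {ω | X 0 ω < X 2 ω}) = 4 * 16⁻¹ := by
    rw [hPc, mu_finset, cPc]; norm_num
  have mPb : mu ({ω : Fin 4 → Bool | X 3 ω < X 0 ω ∧ X 3 ω < X 1 ω} ∩ {ω | X 0 ω < X 1 ω}) = 6 * 16⁻¹ := by
    rw [hPb, mu_finset, cPb]; norm_num
  have mPcb : mu (({ω : Fin 4 → Bool | X 3 ω < X 0 ω ∧ X 3 ω < X 1 ω} ∩ {ω | X 0 ω < X 2 ω}) ∩ {ω | X 0 ω < X 1 ω}) = 2 * 16⁻¹ := by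
    rw [hPcb, mu_finset, cPcb]; norm_num
  refine ⟨?_, ?_⟩
  · rw [mPc]; simp
  · rw [ProbabilityTheory.cond_apply (mset _), ProbabilityTheory.cond_apply (mset _), mPcb, mPb, mP, mPc]
    have h16 : ((16 : ENNReal)⁻¹) ≠ 0 := by simp
    have h16' : ((16 : ENNReal)⁻¹) ≠ ⊤ := by simp
    have f1 : ((4 : ENNReal) * 16⁻¹)⁻¹ * (2 * 16⁻¹) ≠ ⊤ :=
      ENNReal.mul_ne_top (by simp) (ENNReal.mul_ne_top (by simp) h16')
    have f2 : ((10 : ENNReal) * 16⁻¹)⁻¹ * (6 * 16⁻¹) ≠ ⊤ :=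
      ENNReal.mul_ne_top (by simp) (ENNReal.mul_ne_top (by simp) h16')
    rw [← ENNReal.toReal_lt_toReal f1 f2]
    simp only [ENNReal.toReal_mul, ENNReal.toReal_inv, ENNReal.toReal_ofNat]
    norm_num

end Pool.Agent.Results.MP_aa6114_pr.StrictNoTies
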